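import Pool.Agent.Lib_MP_25a3c1_mix.Ratio

/-!
A randomized online algorithm for makespan scheduling on `m` identical machines with
competitive ratio `2 - 4 / (3 m - 1)`, for every `m ≥ 5` and job sequences of any length.
-/

namespace Pool.Agent.Results.MP_25a3c1_lc.CarefulMixture

open Pool.Agent.Lib_MP_25a3c1 Pool.Agent.Lib_MP_25a3c1_mix

/-- For every `m ≥ 5` there is a `(2 - 4 / (3 m - 1))`-competitive randomized algorithm, so the
best randomized ratio is at most this number; for `5 ≤ m ≤ 14` this is less than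
`(4 m ^ 2 - 3 m) / (2 m ^ 2 - 2)`. -/
theorem result (m : ℕ) (hm : 5 ≤ m) :
    (∃ A : Randomized m, CompetitiveAll m A.cost (2 - 4 / (3 * m - 1))) ∧
    randRatio m ≤ 2 - 4 / (3 * m - 1) ∧
    (m ≤ 14 → randRatio m < (4 * m ^ 2 - 3 * m) / (2 * m ^ 2 - 2)) := by
  refine ⟨exists_mixed hm, randRatio_le hm, fun h14 => (randRatio_le hm).trans_lt ?_⟩
  have h5 : (5 : ℝ) ≤ m := by exact_mod_cast hm
  have h14' : (m : ℝ) ≤ 14 := by exact_mod_cast h14
  have h1 : 0 < 3 * (m : ℝ) - 1 := by linarith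
  have h2 : 0 < 2 * (m : ℝ) ^ 2 - 2 := by nlinarith
  have h3 : (2 : ℝ) - 4 / (3 * m - 1) = (6 * m - 6) / (3 * m - 1) := by
    rw [eq_div_iff h1.ne', sub_mul, div_mul_cancel₀ _ h1.ne']
    ring
  rw [h3, div_lt_div_iff₀ h1 h2]
  nlinarith [mul_nonneg (sub_nonneg.2 h5) (sub_nonneg.2 h14')]

end Pool.Agent.Results.MP_25a3c1_lc.CarefulMixture
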