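import Pool.Agent.Lib_MP_25a3c1.Upper
import Pool.Agent.Lib_MP_25a3c1.Mix
import Pool.Agent.Lib_MP_25a3c1.Lower2

/-!
Online makespan scheduling against job sequences with at most one job more than machines.
-/

namespace Pool.Agent.Results.MP_25a3c1_lc.OneExtraJob

open Pool.Agent.Lib_MP_25a3c1 Filter

theorem ratioDet_eq {m : ℕ} (hm : 2 ≤ m) : ratioDet m (m + 1) = 3 / 2 := by
  obtain ⟨A, hA⟩ := det_upper hm
  refine le_antisymm ?_ ?_
  · exact csInf_le ⟨3 / 2, fun c ⟨A, hc⟩ => det_lower hm A c hc⟩ ⟨A, hA⟩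
  · exact le_csInf ⟨3 / 2, A, hA⟩ fun c ⟨A, hc⟩ => det_lower hm A c hc

theorem ratioRand_ge {m : ℕ} (hm : 2 ≤ m) (L : ℝ)
    (h : ∀ (A : Randomized m) (c : ℝ), Competitive m (m + 1) A.cost c → L ≤ c) :
    L ≤ ratioRand m (m + 1) := by
  obtain ⟨A, hA⟩ := rand_upper hm 1 one_pos
  exact le_csInf ⟨_, A, hA⟩ fun c ⟨A, hc⟩ => h A c hc

theorem ratioRand_le {m : ℕ} (hm : 2 ≤ m) : ratioRand m (m + 1) ≤ 24 / 17 := by
  have h1 : ∀ K : ℕ, 0 < K → ratioRand m (m + 1) ≤ 24 / 17 + 1 / K := by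
    intro K hK
    obtain ⟨A, hA⟩ := rand_upper hm K hK
    exact csInf_le ⟨4 / 3, fun c ⟨A, hc⟩ => rand_lower_W hm A c hc⟩ ⟨A, hA⟩
  refine le_of_forall_pos_le_add fun ε hε => ?_
  obtain ⟨K, hK⟩ := exists_nat_one_div_lt hε
  have := h1 (K + 1) (Nat.succ_pos K)
  push_cast at this
  linarith

/-- Against job sequences with at most `m + 1` jobs the best deterministic ratio on `m`
machines is `3 / 2`, while the best randomized ratio is at most `24 / 17` for every `m` and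
tends to `24 / 17`. -/
theorem result :
    (∀ m : ℕ, 2 ≤ m → ratioDet m (m + 1) = 3 / 2 ∧ 4 / 3 ≤ ratioRand m (m + 1) ∧
      ratioRand m (m + 1) ≤ 24 / 17 ∧ ratioRand m (m + 1) < ratioDet m (m + 1)) ∧
    (∀ k m : ℕ, 1 ≤ k → 2 * k + 2 ≤ m →
      24 / 17 * (1 - 1 / (2 * k : ℝ)) ≤ ratioRand m (m + 1)) ∧
    Tendsto (fun m : ℕ => ratioRand m (m + 1)) atTop (nhds (24 / 17)) ∧
    (⨆ m : {m : ℕ // 2 ≤ m}, ratioRand m (m + 1)) = 24 / 17 ∧
    (⨆ m : {m : ℕ // 2 ≤ m}, ratioDet m (m + 1)) = 3 / 2 := by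
  have hlow : ∀ k m : ℕ, 1 ≤ k → 2 * k + 2 ≤ m →
      24 / 17 * (1 - 1 / (2 * k : ℝ)) ≤ ratioRand m (m + 1) := fun k m hk hkm =>
    ratioRand_ge (by omega) _ fun A c hc => rand_lower_many hk hkm A c hc
  have hlim : Tendsto (fun m : ℕ => ratioRand m (m + 1)) atTop (nhds (24 / 17)) := by
    rw [Metric.tendsto_atTop]
    intro ε hε
    obtain ⟨K, hK⟩ := exists_nat_one_div_lt hε
    refine ⟨2 * (K + 1) + 2, fun m hm => ?_⟩
    have h1 := hlow (K + 1) m (by omega) hm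
    have h2 := ratioRand_le (m := m) (by omega)
    have h3 : (1 : ℝ) / (2 * ((K + 1 : ℕ) : ℝ)) = 1 / 2 * (1 / (K + 1)) := by
      push_cast
      field_simp
    rw [h3] at h1
    rw [Real.dist_eq, abs_lt]
    constructor <;> nlinarith
  refine ⟨fun m hm => ⟨ratioDet_eq hm, ratioRand_ge hm _ fun A c hc => rand_lower_W hm A c hc,
    ratioRand_le hm, ?_⟩, hlow, hlim, ?_, ?_⟩
  · rw [ratioDet_eq hm]
    exact (ratioRand_le hm).trans_lt (by norm_num)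
  · have : Nonempty {m : ℕ // 2 ≤ m} := ⟨⟨2, le_rfl⟩⟩
    refine le_antisymm (ciSup_le fun m => ratioRand_le m.2) ?_
    have hb : BddAbove (Set.range fun m : {m : ℕ // 2 ≤ m} => ratioRand m (m + 1)) :=
      ⟨24 / 17, by rintro _ ⟨m, rfl⟩; exact ratioRand_le m.2⟩
    refine le_of_tendsto hlim ?_
    filter_upwards [eventually_ge_atTop 2] with m hm
    exact le_ciSup hb (⟨m, hm⟩ : {m : ℕ // 2 ≤ m})
  · have : Nonempty {m : ℕ // 2 ≤ m} := ⟨⟨2, le_rfl⟩⟩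
    have h : (fun m : {m : ℕ // 2 ≤ m} => ratioDet m (m + 1)) = fun _ => (3 / 2 : ℝ) := by
      funext m
      exact ratioDet_eq m.2
    rw [h, ciSup_const]

end Pool.Agent.Results.MP_25a3c1_lc.OneExtraJob
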