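import Pool.Agent.Lib_MP_25a3c1_mix.Det
import Pool.Agent.Lib_MP_25a3c1_mix.Main8
import Pool.Agent.Lib_MP_25a3c1_lb.Six
import Pool.Agent.Lib_MP_25a3c1_lb.Seven
import Pool.Agent.Lib_MP_25a3c1_lb.Eight

/-!
Randomization helps for online makespan scheduling on six, seven and eight identical machines.
-/

namespace Pool.Agent.Results.MP_25a3c1_lc.SixToEight

open Pool.Agent.Lib_MP_25a3c1 Pool.Agent.Lib_MP_25a3c1_mix

/-- On six identical machines the best randomized competitive ratio is at most `30 / 17`, the best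
deterministic one is at least `2639 / 1489`; on seven identical machines they are at most
`447 / 250` and at least `12311 / 6876`; on eight at most `721 / 400` and at least
`135859 / 75347`. So in all three cases the first is smaller than the second. -/
theorem result :
    (randRatio 6 ≤ 30 / 17 ∧ (30 / 17 : ℝ) < 2639 / 1489 ∧ 2639 / 1489 ≤ detRatio 6) ∧
    (randRatio 7 ≤ 447 / 250 ∧ (447 / 250 : ℝ) < 12311 / 6876 ∧ 12311 / 6876 ≤ detRatio 7) ∧
    (randRatio 8 ≤ 721 / 400 ∧ (721 / 400 : ℝ) < 135859 / 75347 ∧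
      135859 / 75347 ≤ detRatio 8) ∧
    randRatio 6 < detRatio 6 ∧ randRatio 7 < detRatio 7 ∧ randRatio 8 < detRatio 8 := by
  have h1 : randRatio 6 ≤ 30 / 17 := by
    have h := randRatio_le (m := 6) (by norm_num)
    norm_num at h
    exact h
  have h2 : (30 / 17 : ℝ) < 2639 / 1489 := by norm_num
  have h3 : 2639 / 1489 ≤ detRatio 6 :=
    le_detRatio (by norm_num) fun A c hc => six_lower A c fun p n hp _ => hc p n hp
  have h4 : randRatio 7 ≤ 447 / 250 := randRatio_seven_le
  have h5 : (447 / 250 : ℝ) < 12311 / 6876 := by norm_num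
  have h6 : 12311 / 6876 ≤ detRatio 7 :=
    le_detRatio (by norm_num) fun A c hc => seven_lower A c fun p n hp _ => hc p n hp
  have h7 : randRatio 8 ≤ 721 / 400 := randRatio_eight_le
  have h8 : (721 / 400 : ℝ) < 135859 / 75347 := by norm_num
  have h9 : 135859 / 75347 ≤ detRatio 8 :=
    le_detRatio (by norm_num) fun A c hc => eight_lower A c fun p n hp _ => hc p n hp
  exact ⟨⟨h1, h2, h3⟩, ⟨h4, h5, h6⟩, ⟨h7, h8, h9⟩, h1.trans_lt (h2.trans_le h3),
    h4.trans_lt (h5.trans_le h6), h7.trans_lt (h8.trans_le h9)⟩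

end Pool.Agent.Results.MP_25a3c1_lc.SixToEight
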